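import Pool.Agent.MP_43f1fb_co.Defs
import Mathlib

-- part MP_43f1fb_co.Legal
section

/-! Legal words and height functions. -/

namespace Pool.Agent.MP_43f1fb_co

/-- Neighbouring columns have heights differing by one. -/
def Adj (n : ℕ) (h : ℕ → ℕ) : Prop :=
  ∀ i, 1 ≤ i → i + 1 < n → (h i + 1 = h (i + 1) ∨ h (i + 1) + 1 = h i)

/-- Raise column `i`. -/
def step (h : ℕ → ℕ) (i : ℕ) : ℕ → ℕ := fun k => if k = i then h k + 2 else h k

/-- Heights after reading a word. -/
def run (h : ℕ → ℕ) (w : List ℕ) : ℕ → ℕ := fun k => h k + 2 * w.count k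

/-- All intermediate height functions are admissible. -/
def LegalFrom (n : ℕ) : (ℕ → ℕ) → List ℕ → Prop
  | h, [] => Adj n h
  | h, i :: w => Adj n h ∧ (1 ≤ i ∧ i < n) ∧ LegalFrom n (step h i) w

/-- The initial heights. -/
def X0 : ℕ → ℕ := fun i => (i + 1) % 2

lemma run_nil (h : ℕ → ℕ) : run h [] = h := by funext k; simp [run]

lemma run_cons (h : ℕ → ℕ) (i : ℕ) (w : List ℕ) : run h (i :: w) = run (step h i) w := by
  funext k
  simp only [run, step, List.count_cons, beq_iff_eq]
  by_cases hk : k = i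
  · subst hk; simp; omega
  · rw [if_neg hk, if_neg (Ne.symm hk)]; simp

lemma run_append (h : ℕ → ℕ) (l r : List ℕ) : run h (l ++ r) = run (run h l) r := by
  funext k; simp only [run, List.count_append]; omega

lemma run_concat (h : ℕ → ℕ) (l : List ℕ) (i : ℕ) : run h (l ++ [i]) = step (run h l) i := by
  rw [run_append, run_cons, run_nil]

lemma LegalFrom.adj {n : ℕ} {h : ℕ → ℕ} {w : List ℕ} (H : LegalFrom n h w) : Adj n h := by
  cases w with
  | nil => exact H
  | cons i w => exact H.1

lemma legal_append {n : ℕ} {l r : List ℕ} : ∀ {h : ℕ → ℕ},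
    LegalFrom n h (l ++ r) ↔ LegalFrom n h l ∧ LegalFrom n (run h l) r := by
  induction l with
  | nil =>
    intro h
    rw [List.nil_append, run_nil]
    exact ⟨fun H => ⟨H.adj, H⟩, fun H => H.2⟩
  | cons i l ih =>
    intro h
    rw [List.cons_append, run_cons]
    simp only [LegalFrom]
    rw [ih]
    tauto

lemma step_comm (h : ℕ → ℕ) (a b : ℕ) : step (step h a) b = step (step h b) a := by
  funext k; simp only [step]; split_ifs <;> rfl

lemma adj_of_swap {n : ℕ} {h : ℕ → ℕ} {a b : ℕ} (hab : a + 2 ≤ b ∨ b + 2 ≤ a) (h0 : Adj n h)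
    (h2 : Adj n (step (step h a) b)) : Adj n (step h b) := by
  intro i hi1 hi2
  have e0 := h0 i hi1 hi2
  have e2 := h2 i hi1 hi2
  simp only [step] at e2 ⊢
  split_ifs at e2 ⊢ <;> omega

lemma adj_both {n : ℕ} {h : ℕ → ℕ} {a b : ℕ} (hab : a + 2 ≤ b ∨ b + 2 ≤ a)
    (h1 : Adj n (step h a)) (h2 : Adj n (step h b)) : Adj n (step (step h a) b) := by
  intro i hi1 hi2
  have e1 := h1 i hi1 hi2
  have e2 := h2 i hi1 hi2
  simp only [step] at e1 e2 ⊢
  split_ifs at e1 e2 ⊢ <;> omega

lemma legal_commStep {n : ℕ} {h : ℕ → ℕ} {v w : List ℕ} (hvw : CommStep v w)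
    (H : LegalFrom n h v) : LegalFrom n h w ∧ w.Perm v := by
  obtain ⟨l, r, a, b, hab, rfl, rfl⟩ := hvw
  refine ⟨?_, (List.Perm.swap a b r).append_left l⟩
  rw [legal_append] at H ⊢
  obtain ⟨H1, H2, ha, H3, hb, H4⟩ := H
  refine ⟨H1, H2, hb, adj_of_swap hab H2 H4.adj, ha, ?_⟩
  rwa [step_comm]

lemma legal_class {n : ℕ} {h : ℕ → ℕ} {v w : List ℕ} (hvw : w ∈ commClass v)
    (H : LegalFrom n h v) : LegalFrom n h w ∧ w.Perm v := by
  induction hvw with
  | refl => exact ⟨H, List.Perm.refl _⟩
  | tail _ hbc ih =>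
    obtain ⟨h1, h2⟩ := legal_commStep hbc ih.1
    exact ⟨h1, h2.trans ih.2⟩

lemma commStep_append_left (u : List ℕ) {v w : List ℕ} (h : CommStep v w) :
    CommStep (u ++ v) (u ++ w) := by
  obtain ⟨l, r, a, b, hab, rfl, rfl⟩ := h
  exact ⟨u ++ l, r, a, b, hab, by simp, by simp⟩

lemma rtg_append_left (u : List ℕ) {v w : List ℕ} (h : Relation.ReflTransGen CommStep v w) :
    Relation.ReflTransGen CommStep (u ++ v) (u ++ w) := by
  induction h with
  | refl => exact Relation.ReflTransGen.refl
  | tail _ hbc ih => exact ih.tail (commStep_append_left u hbc)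

lemma far_of_adj {n : ℕ} {h : ℕ → ℕ} {i k : ℕ} (h0 : Adj n h) (hi : 1 ≤ i ∧ i < n)
    (hk : 1 ≤ k ∧ k < n) (h1 : Adj n (step h i)) (h2 : Adj n (step h k)) (hne : k ≠ i) :
    k + 2 ≤ i ∨ i + 2 ≤ k := by
  by_contra hcon
  rcases (by omega : k = i + 1 ∨ i = k + 1) with rfl | rfl
  · have e0 := h0 i hi.1 hk.2
    have e1 := h1 i hi.1 hk.2
    have e2 := h2 i hi.1 hk.2
    simp only [step] at e1 e2
    split_ifs at e1 e2 <;> omega
  · have e0 := h0 k hk.1 hi.2
    have e1 := h1 k hk.1 hi.2
    have e2 := h2 k hk.1 hi.2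
    simp only [step] at e1 e2
    split_ifs at e1 e2 <;> omega

/-- An available letter can be pulled to the front. -/
lemma pull {n i : ℕ} (hi : 1 ≤ i ∧ i < n) : ∀ (v : List ℕ) (h : ℕ → ℕ), LegalFrom n h v →
    i ∈ v → Adj n (step h i) → ∃ v', Relation.ReflTransGen CommStep v (i :: v') := by
  intro v
  induction v with
  | nil => intro h _ hm; simp at hm
  | cons k v ih =>
    intro h H hm hadj
    by_cases hki : k = i
    · subst hki; exact ⟨v, Relation.ReflTransGen.refl⟩
    · have hfar := far_of_adj H.1 hi H.2.1 hadj H.2.2.adj hki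
      have hm' : i ∈ v := by
        rcases List.mem_cons.1 hm with h1 | h1
        · exact absurd h1.symm hki
        · exact h1
      obtain ⟨v', hv'⟩ := ih (step h k) H.2.2 hm' (adj_both hfar H.2.2.adj hadj)
      refine ⟨k :: v', ?_⟩
      have h1 := rtg_append_left [k] hv'
      exact h1.tail ⟨[], v', k, i, hfar, rfl, rfl⟩

/-- The heights after `t` full blocks. -/
def Lev (n t : ℕ) (h : ℕ → ℕ) : Prop :=
  ∀ i, 1 ≤ i → i < n → h i = if i % 2 = (t + 1) % 2 then t else t + 1

lemma lev_X0 (n : ℕ) : Lev n 0 X0 := by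
  intro i _ _
  simp only [X0]
  split_ifs <;> omega

lemma legal_block {n t : ℕ} : ∀ (L : List ℕ) (h : ℕ → ℕ), L.Nodup →
    (∀ i ∈ L, (1 ≤ i ∧ i < n) ∧ i % 2 = (t + 1) % 2 ∧ h i = t) →
    (∀ i, 1 ≤ i → i < n →
      if i % 2 = (t + 1) % 2 then (h i = t ∨ h i = t + 2) else h i = t + 1) →
    LegalFrom n h L := by
  have key : ∀ h : ℕ → ℕ, (∀ i, 1 ≤ i → i < n →
      if i % 2 = (t + 1) % 2 then (h i = t ∨ h i = t + 2) else h i = t + 1) → Adj n h := by
    intro h H i hi1 hi2
    have e1 := H i hi1 (by omega)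
    have e2 := H (i + 1) (by omega) hi2
    split_ifs at e1 e2 <;> omega
  intro L
  induction L with
  | nil => intro h _ _ H; exact key h H
  | cons k L ih =>
    intro h hnd hL H
    rw [List.nodup_cons] at hnd
    have hk := hL k List.mem_cons_self
    refine ⟨key h H, hk.1, ih _ hnd.2 (fun i hi => ?_) (fun i hi1 hi2 => ?_)⟩
    · have hi' := hL i (List.mem_cons_of_mem _ hi)
      have : i ≠ k := fun e => hnd.1 (e ▸ hi)
      refine ⟨hi'.1, hi'.2.1, ?_⟩
      simp only [step, if_neg this]
      exact hi'.2.2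
    · have e := H i hi1 hi2
      simp only [step]
      by_cases hik : i = k
      · subst hik
        rw [if_pos hk.2.1, if_pos rfl]
        omega
      · rw [if_neg hik]; exact e

lemma block_step {n t : ℕ} {L : List ℕ} {h : ℕ → ℕ} (hnd : L.Nodup)
    (hL : ∀ i, i ∈ L ↔ (1 ≤ i ∧ i < n) ∧ i % 2 = (t + 1) % 2) (H : Lev n t h) :
    LegalFrom n h L ∧ Lev n (t + 1) (run h L) := by
  constructor
  · refine legal_block (t := t) L h hnd (fun i hi => ?_) (fun i hi1 hi2 => ?_)
    · have hi' := (hL i).1 hi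
      refine ⟨hi'.1, hi'.2, ?_⟩
      rw [H i hi'.1.1 hi'.1.2, if_pos hi'.2]
    · have e := H i hi1 hi2
      split_ifs at e ⊢ <;> omega
  · intro i hi1 hi2
    have e := H i hi1 hi2
    simp only [run]
    by_cases hp : i % 2 = (t + 1) % 2
    · rw [List.count_eq_one_of_mem hnd ((hL i).2 ⟨⟨hi1, hi2⟩, hp⟩)]
      split_ifs at e ⊢ <;> omega
    · rw [List.count_eq_zero_of_not_mem (fun hm => hp ((hL i).1 hm).2)]
      split_ifs at e ⊢ <;> omega

lemma oddWord_nodup (n : ℕ) : (oddWord n).Nodup :=
  List.Nodup.map (fun a b h => by omega) List.nodup_range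

lemma evenWord_nodup (n : ℕ) : (evenWord n).Nodup :=
  List.Nodup.map (fun a b h => by omega) List.nodup_range

lemma mem_oddWord {n i : ℕ} : i ∈ oddWord n ↔ (1 ≤ i ∧ i < n) ∧ i % 2 = 1 := by
  simp only [oddWord, List.mem_map, List.mem_range]
  constructor
  · rintro ⟨j, hj, rfl⟩; omega
  · intro h; exact ⟨i / 2, by omega, by omega⟩

lemma mem_evenWord {n i : ℕ} : i ∈ evenWord n ↔ (1 ≤ i ∧ i < n) ∧ i % 2 = 0 := by
  simp only [evenWord, List.mem_map, List.mem_range]
  constructor
  · rintro ⟨j, hj, rfl⟩; omega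
  · intro h; exact ⟨i / 2 - 1, by omega, by omega⟩

lemma odd_step {n a : ℕ} {h : ℕ → ℕ} (H : Lev n (2 * a) h) :
    LegalFrom n h (oddWord n) ∧ Lev n (2 * a + 1) (run h (oddWord n)) :=
  block_step (oddWord_nodup n) (fun i => by rw [mem_oddWord]; omega) H

lemma even_step {n a : ℕ} {h : ℕ → ℕ} (H : Lev n (2 * a + 1) h) :
    LegalFrom n h (evenWord n) ∧ Lev n (2 * a + 1 + 1) (run h (evenWord n)) :=
  block_step (evenWord_nodup n) (fun i => by rw [mem_evenWord]; omega) H

lemma powWord_succ (n q : ℕ) : powWord n (q + 1) = powWord n q ++ (oddWord n ++ evenWord n) := by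
  simp [powWord, List.replicate_succ']

lemma powWord_legal (n q : ℕ) :
    LegalFrom n X0 (powWord n q) ∧ Lev n (2 * q) (run X0 (powWord n q)) := by
  induction q with
  | zero =>
    have : powWord n 0 = [] := rfl
    rw [this, run_nil]
    refine ⟨?_, lev_X0 n⟩
    intro i _ _
    simp only [X0]; omega
  | succ q ih =>
    obtain ⟨h1, h2⟩ := odd_step ih.2
    obtain ⟨h3, h4⟩ := even_step h2
    rw [powWord_succ, legal_append, legal_append, run_append, run_append]
    exact ⟨⟨ih.1, h1, h3⟩, h4⟩

lemma wordProd_append (n : ℕ) (l r : List ℕ) :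
    wordProd n (l ++ r) = wordProd n l * wordProd n r := by
  simp [wordProd]

lemma wordProd_powWord (n q : ℕ) : wordProd n (powWord n q) = cox n ^ q := by
  induction q with
  | zero => simp [wordProd, powWord]
  | succ q ih => rw [powWord_succ, wordProd_append, wordProd_append, ih, pow_succ, cox]

lemma exists_uWord (n p : ℕ) :
    ∃ u, wordProd n u = uPerm n p ∧ LegalFrom n X0 u ∧ Lev n p (run X0 u) := by
  by_cases hp : p % 2 = 1
  · obtain ⟨h1, h2⟩ := powWord_legal n ((p - 1) / 2)
    obtain ⟨h3, h4⟩ := odd_step h2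
    refine ⟨powWord n ((p - 1) / 2) ++ oddWord n, ?_, legal_append.2 ⟨h1, h3⟩, ?_⟩
    · rw [uPerm, if_pos hp, wordProd_append, wordProd_powWord]
    · rw [run_append]
      have e : 2 * ((p - 1) / 2) + 1 = p := by omega
      rwa [e] at h4
  · obtain ⟨h1, h2⟩ := powWord_legal n (p / 2)
    refine ⟨powWord n (p / 2), ?_, h1, ?_⟩
    · rw [uPerm, if_neg hp, wordProd_powWord]
    · have e : 2 * (p / 2) = p := by omega
      rwa [e] at h2

lemma run_X0_parity (u : List ℕ) (i : ℕ) : run X0 u i % 2 = (i + 1) % 2 := by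
  simp only [run, X0]; omega

/-- Initial segments of words of the class are legal and bounded. -/
lemma class_segment {n p : ℕ} {u v : List ℕ} (h : u ++ v ∈ commClass (powWord n p)) :
    LegalFrom n X0 u ∧ LegalFrom n (run X0 u) v ∧
      ∀ i, 1 ≤ i → i < n → run X0 u i + 2 * v.count i =
        if i % 2 = 1 then 2 * p else 2 * p + 1 := by
  obtain ⟨h1, h2⟩ := legal_class h (powWord_legal n p).1
  rw [legal_append] at h1
  refine ⟨h1.1, h1.2, fun i hi1 hi2 => ?_⟩
  have e := (powWord_legal n p).2 i hi1 hi2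
  have e2 := h2.count_eq i
  simp only [run, List.count_append] at e e2 ⊢
  split_ifs at e ⊢ <;> omega

/-- Every admissible bounded height function is reached by an initial segment. -/
lemma exists_segment {n p : ℕ} : ∀ (S : ℕ) (X : ℕ → ℕ), ∑ i ∈ Finset.range n, X i = S →
    Adj n X → (∀ i, 1 ≤ i → i < n → X i % 2 = (i + 1) % 2 ∧ X i ≤ 2 * p + 1) →
    ∃ u v, u ++ v ∈ commClass (powWord n p) ∧ ∀ i, 1 ≤ i → i < n → run X0 u i = X i := by
  intro S
  induction S using Nat.strong_induction_on with
  | _ S ih =>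
    intro X hS hadj hX
    by_cases hsmall : ∀ i, 1 ≤ i → i < n → X i ≤ 1
    · refine ⟨[], powWord n p, Relation.ReflTransGen.refl, fun i hi1 hi2 => ?_⟩
      have e1 := hsmall i hi1 hi2
      have e2 := (hX i hi1 hi2).1
      simp only [run_nil, X0]; omega
    · push Not at hsmall
      obtain ⟨i0, hi01, hi02, hi03⟩ := hsmall
      obtain ⟨i, hi, hmax⟩ := Finset.exists_max_image (Finset.Ico 1 n) X
        ⟨i0, Finset.mem_Ico.2 ⟨hi01, hi02⟩⟩
      rw [Finset.mem_Ico] at hi
      have hmax' : ∀ k, 1 ≤ k → k < n → X k ≤ X i := fun k h1 h2 =>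
        hmax k (Finset.mem_Ico.2 ⟨h1, h2⟩)
      have hi2 : 2 ≤ X i := le_trans hi03 (hmax' i0 hi01 hi02)
      set Y : ℕ → ℕ := fun k => if k = i then X k - 2 else X k with hY
      have hsum : ∑ k ∈ Finset.range n, Y k < S := by
        rw [← hS]
        refine Finset.sum_lt_sum (fun k _ => ?_) ⟨i, Finset.mem_range.2 hi.2, ?_⟩
        · simp only [hY]; split_ifs <;> omega
        · simp only [hY, if_true]; omega
      have hYadj : Adj n Y := by
        intro k hk1 hk2
        have e := hadj k hk1 hk2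
        have m1 := hmax' k hk1 (by omega)
        have m2 := hmax' (k + 1) (by omega) hk2
        simp only [hY]
        split_ifs with c1 c2 c2
        · omega
        · subst c1; omega
        · subst c2; omega
        · exact e
      have hYb : ∀ k, 1 ≤ k → k < n → Y k % 2 = (k + 1) % 2 ∧ Y k ≤ 2 * p + 1 := by
        intro k hk1 hk2
        have e := hX k hk1 hk2
        simp only [hY]
        split_ifs with c1
        · subst c1; omega
        · exact e
      obtain ⟨u, v, huv, hu⟩ := ih _ hsum Y rfl hYadj hYb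
      obtain ⟨-, hv, hcount⟩ := class_segment huv
      have hstep : ∀ k, 1 ≤ k → k < n → step (run X0 u) i k = X k := by
        intro k hk1 hk2
        simp only [step, hu k hk1 hk2, hY]
        split_ifs with c1
        · subst c1; omega
        · rfl
      have hmem : i ∈ v := by
        have e1 := hcount i hi.1 hi.2
        have e2 := hu i hi.1 hi.2
        have e3 := hX i hi.1 hi.2
        simp only [hY, if_true] at e2
        rw [← List.count_pos_iff]
        split_ifs at e1 <;> omega
      have hadj' : Adj n (step (run X0 u) i) := by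
        intro k hk1 hk2
        rw [hstep k hk1 (by omega), hstep (k + 1) (by omega) hk2]
        exact hadj k hk1 hk2
      obtain ⟨v', hv'⟩ := pull hi v _ hv hmem hadj'
      refine ⟨u ++ [i], v', ?_, fun k hk1 hk2 => ?_⟩
      · have h1 := rtg_append_left u hv'
        have h2 : u ++ [i] ++ v' = u ++ i :: v' := by simp
        rw [h2]
        exact Relation.ReflTransGen.trans huv h1
      · rw [run_concat]; exact hstep k hk1 hk2

end Pool.Agent.MP_43f1fb_co

end

-- part MP_43f1fb_co.Wires
section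

/-! The wiring diagram: the permutation of a legal word and its inversions. -/

namespace Pool.Agent.MP_43f1fb_co

/-- Action of block number `j` on positions. -/
def blk (n j q : ℕ) : ℕ :=
  if q < n then
    (if (q + 1) % 2 = j % 2 then (if q + 1 < n then q + 1 else q) else (if 1 ≤ q then q - 1 else q))
  else q

/-- The wire at a position after `t` blocks. -/
def U (n : ℕ) : ℕ → ℕ → ℕ
  | 0 => fun q => q
  | t + 1 => fun q => U n t (blk n (t + 1) q)

/-- Local time at a position. -/
def T (n : ℕ) (X : ℕ → ℕ) (q : ℕ) : ℕ :=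
  if q = 0 then X 1 else if q + 1 = n then X q else min (X q) (X (q + 1))

lemma blk_blk (n j q : ℕ) : blk n j (blk n j q) = q := by
  simp only [blk]
  split_ifs <;> omega

lemma U_inj (n t : ℕ) : Function.Injective (U n t) := by
  induction t with
  | zero => intro a b h; exact h
  | succ t ih =>
    intro a b h
    have := ih h
    rw [← blk_blk n (t + 1) a, this, blk_blk]

lemma s_val {n i : ℕ} (hi : 1 ≤ i ∧ i < n) (q : Fin n) :
    (s n i q).val = if q.val = i - 1 then i else if q.val = i then i - 1 else q.val := by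
  rw [s, dif_pos hi, Equiv.swap_apply_def]
  simp only [Fin.ext_iff]
  split_ifs <;> rfl

lemma wordProd_concat (n : ℕ) (u : List ℕ) (i : ℕ) :
    wordProd n (u ++ [i]) = wordProd n u * s n i := by
  simp [wordProd]

lemma nbr_heights {n i : ℕ} {X : ℕ → ℕ} (h0 : Adj n X) (h1 : Adj n (step X i)) (hi : 1 ≤ i ∧ i < n) :
    (i + 1 < n → X (i + 1) = X i + 1) ∧ (2 ≤ i → X (i - 1) = X i + 1) := by
  constructor
  · intro h
    have e0 := h0 i hi.1 h
    have e1 := h1 i hi.1 h
    simp only [step] at e1
    split_ifs at e1 <;> omega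
  · intro h
    obtain ⟨k, rfl⟩ : ∃ k, i = k + 1 := ⟨i - 1, by omega⟩
    have e0 := h0 k (by omega) hi.2
    have e1 := h1 k (by omega) hi.2
    simp only [step] at e1
    simp only [Nat.add_sub_cancel]
    split_ifs at e1 <;> omega

lemma T_at {n i : ℕ} {X : ℕ → ℕ} (h0 : Adj n X) (h1 : Adj n (step X i)) (hi : 1 ≤ i ∧ i < n) :
    T n X (i - 1) = X i ∧ T n X i = X i := by
  obtain ⟨e1, e2⟩ := nbr_heights h0 h1 hi
  constructor
  · simp only [T]
    split_ifs with c1 c2
    · obtain rfl : i = 1 := by omega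
      rfl
    · omega
    · have e : i - 1 + 1 = i := by omega
      rw [e, e2 (by omega)]; omega
  · simp only [T]
    split_ifs with c1 c2
    · omega
    · rfl
    · rw [e1 (by omega)]; omega

theorem wordProd_val {n : ℕ} (u : List ℕ) : LegalFrom n X0 u →
    ∀ q : Fin n, (wordProd n u q).val = U n (T n (run X0 u) q) q := by
  induction u using List.reverseRecOn with
  | nil =>
    intro _ q
    have hq := q.2
    have e : (wordProd n [] q).val = q.val := rfl
    rw [e, run_nil]
    simp only [T, X0]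
    split_ifs with c1 c2
    · rfl
    · rcases Nat.mod_two_eq_zero_or_one (q.val + 1) with h | h
      · rw [h]; rfl
      · rw [h]
        show q.val = blk n 1 q.val
        simp only [blk]
        split_ifs <;> omega
    · have : min ((q.val + 1) % 2) ((q.val + 1 + 1) % 2) = 0 := by omega
      rw [this]; rfl
  | append_singleton u i ih =>
    intro H q
    rw [legal_append] at H
    obtain ⟨H1, H2, hi, H3⟩ := H
    have H3' : Adj n (step (run X0 u) i) := H3
    have hq := q.2
    obtain ⟨t1, t2⟩ := T_at H2 H3' hi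
    obtain ⟨e1, e2⟩ := nbr_heights H2 H3' hi
    have hpar := run_X0_parity u i
    rw [wordProd_concat, Equiv.Perm.mul_apply, ih H1, s_val hi, run_concat]
    set X := run X0 u with hX
    have b1 : U n (X i + 1) (i - 1) = U n (X i) i := by
      show U n (X i) (blk n (X i + 1) (i - 1)) = _
      congr 1
      simp only [blk]
      split_ifs <;> omega
    have b2 : U n (X i + 1) i = U n (X i) (i - 1) := by
      show U n (X i) (blk n (X i + 1) i) = _
      congr 1
      simp only [blk]
      split_ifs <;> omega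
    by_cases c1 : q.val = i - 1
    · rw [if_pos c1, t2, c1, ← b1]
      by_cases c0 : i = 1
      · subst c0
        have : T n (step X 1) (1 - 1) = X 1 + 1 + 1 := by simp [T, step]
        rw [this]
        show _ = U n (X 1 + 1) (blk n (X 1 + 1 + 1) (1 - 1))
        congr 1
        simp only [blk]
        split_ifs <;> omega
      · have : T n (step X i) (i - 1) = X i + 1 := by
          have e : i - 1 + 1 = i := by omega
          simp only [T, step]
          rw [if_neg (by omega), if_neg (by omega), if_neg (by omega), e, if_pos rfl,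
            e2 (by omega)]
          omega
        rw [this]
    · rw [if_neg c1]
      by_cases c2 : q.val = i
      · rw [if_pos c2, t1, c2, ← b2]
        by_cases c0 : i + 1 = n
        · have : T n (step X i) i = X i + 1 + 1 := by
            simp only [T, step]
            rw [if_neg (by omega), if_pos c0, if_pos trivial]
          rw [this]
          show _ = U n (X i + 1) (blk n (X i + 1 + 1) i)
          congr 1
          simp only [blk]
          split_ifs <;> omega
        · have : T n (step X i) i = X i + 1 := by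
            simp only [T, step]
            rw [if_neg (by omega), if_neg c0, if_pos trivial, if_neg (by omega), e1 (by omega)]
            omega
          rw [this]
      · rw [if_neg c2]
        congr 1
        simp only [T, step]
        split_ifs <;> first | rfl | omega

/-- Wires `a` and `b` meet at column `i` after `t` blocks. -/
def Cross (n i t a b : ℕ) : Prop :=
  (U n t (i - 1) = a ∧ U n t i = b) ∨ (U n t (i - 1) = b ∧ U n t i = a)

/-- Lift of a wire label to the unfolded circle. -/
def lift (a : ℕ) : ℤ := if a % 2 = 0 then (a : ℤ) + 1 else -(a : ℤ)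

lemma lift_U {n : ℕ} (t : ℕ) : ∀ q, q < n → ∃ k : ℤ,
    lift (U n t q) + t = (if q % 2 = t % 2 then (q : ℤ) + 1 else -(q : ℤ)) + 2 * n * k := by
  induction t with
  | zero =>
    intro q _
    exact ⟨0, by simp [U, lift]⟩
  | succ t ih =>
    intro q hq
    have hb : blk n (t + 1) q < n := by
      simp only [blk]; split_ifs <;> omega
    obtain ⟨k, hk⟩ := ih _ hb
    have e : U n (t + 1) q = U n t (blk n (t + 1) q) := rfl
    rw [e]
    by_cases c : (q + 1) % 2 = (t + 1) % 2 ∧ q + 1 = n
    · refine ⟨k + 1, ?_⟩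
      have e2 : blk n (t + 1) q = q := by
        simp only [blk]; split_ifs <;> omega
      rw [e2] at hk ⊢
      rw [if_pos (by omega)] at hk
      rw [if_neg (by omega)]
      have : (n : ℤ) = q + 1 := by omega
      rw [this] at hk ⊢
      push_cast
      linarith
    · refine ⟨k, ?_⟩
      generalize 2 * (n : ℤ) * k = z at hk ⊢
      generalize lift (U n t (blk n (t + 1) q)) = y at hk ⊢
      simp only [blk] at hk
      split_ifs at hk ⊢ <;> omega

lemma cross_sum {n i t a b : ℕ} (hi : 1 ≤ i ∧ i < n) (hp : t % 2 = (i + 1) % 2)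
    (h : Cross n i t a b) : ∃ k : ℤ, lift a + lift b + 2 * t = 2 * n * k := by
  obtain ⟨k1, h1⟩ := lift_U (n := n) t (i - 1) (by omega)
  obtain ⟨k2, h2⟩ := lift_U (n := n) t i hi.2
  rw [if_pos (by omega)] at h1
  rw [if_neg (by omega)] at h2
  have e : ((i - 1 : ℕ) : ℤ) = i - 1 := by omega
  rw [e] at h1
  refine ⟨k1 + k2, ?_⟩
  rcases h with ⟨ha, hb⟩ | ⟨ha, hb⟩ <;> rw [ha] at h1 <;> rw [hb] at h2 <;> linarith

lemma cross_unique {n i t i' t' a b : ℕ} (hi : 1 ≤ i ∧ i < n) (hp : t % 2 = (i + 1) % 2)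
    (hi' : 1 ≤ i' ∧ i' < n) (hp' : t' % 2 = (i' + 1) % 2) (ht : t < n) (ht' : t' < n)
    (h : Cross n i t a b) (h' : Cross n i' t' a b) : i = i' ∧ t = t' := by
  obtain ⟨k, hk⟩ := cross_sum hi hp h
  obtain ⟨k', hk'⟩ := cross_sum hi' hp' h'
  have e : (t : ℤ) - t' = n * (k - k') := by linarith
  have htt : t = t' := by
    have h0 : k - k' = 0 := by
      by_contra hne
      rcases lt_or_gt_of_ne hne with c | c
      · have : (n : ℤ) * (k - k') ≤ n * (-1) :=
          mul_le_mul_of_nonneg_left (by omega) (by omega)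
        omega
      · have : (n : ℤ) * 1 ≤ n * (k - k') :=
          mul_le_mul_of_nonneg_left (by omega) (by omega)
        omega
    rw [h0] at e
    omega
  subst htt
  refine ⟨?_, rfl⟩
  rcases h with ⟨ha, hb⟩ | ⟨ha, hb⟩ <;> rcases h' with ⟨ha', hb'⟩ | ⟨ha', hb'⟩
  · exact U_inj n t (hb.trans hb'.symm)
  · have e1 := U_inj n t (ha.trans hb'.symm)
    have e2 := U_inj n t (hb.trans ha'.symm)
    omega
  · have e1 := U_inj n t (ha.trans hb'.symm)
    have e2 := U_inj n t (hb.trans ha'.symm)
    omega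
  · exact U_inj n t (hb.trans hb'.symm)

/-- The wires `a`, `b` have crossed below the heights `X`. -/
def Crossed (n : ℕ) (X : ℕ → ℕ) (a b : ℕ) : Prop :=
  ∃ i t, (1 ≤ i ∧ i < n) ∧ t % 2 = (i + 1) % 2 ∧ t < X i ∧ Cross n i t a b

theorem before_iff {n : ℕ} (u : List ℕ) : LegalFrom n X0 u →
    (∀ i, 1 ≤ i → i < n → run X0 u i ≤ n + 1) → ∀ a b : Fin n, a < b →
    (Before (wordProd n u) b a ↔ Crossed n (run X0 u) a b) := by
  induction u using List.reverseRecOn with
  | nil =>
    intro _ _ a b hab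
    constructor
    · intro h
      exact absurd h (not_lt.2 hab.le)
    · rintro ⟨i, t, -, h1, h2, -⟩
      simp only [run_nil, X0] at h2
      omega
  | append_singleton u i ih =>
    intro H hbd a b hab
    rw [legal_append] at H
    obtain ⟨H1, H2, hi, H3⟩ := H
    have H3' : Adj n (step (run X0 u) i) := H3
    obtain ⟨t1, t2⟩ := T_at H2 H3' hi
    have hpar := run_X0_parity u i
    rw [run_concat] at hbd ⊢
    have hval := wordProd_val u H1
    have hbd' : ∀ k, 1 ≤ k → k < n → run X0 u k ≤ n + 1 := by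
      intro k h1 h2
      have := hbd k h1 h2
      simp only [step] at this
      split_ifs at this <;> omega
    have hbi : run X0 u i + 2 ≤ n + 1 := by
      have := hbd i hi.1 hi.2
      simpa [step] using this
    have IH := ih H1 hbd' a b hab
    set X := run X0 u with hX
    set x := wordProd n u with hx
    have hB : Before (wordProd n (u ++ [i])) b a ↔ (s n i (x.symm b)).val < (s n i (x.symm a)).val := by
      have hs : (s n i).symm = s n i := by rw [s, dif_pos hi]; rfl
      rw [wordProd_concat, Before, ← hx]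
      have : ∀ c, (x * s n i).symm c = s n i (x.symm c) := fun c => by
        have e : (x * s n i).symm c = (s n i).symm (x.symm c) := rfl
        rw [e, hs]
      rw [this, this]; rfl
    have hloc : ∀ (c : Fin n) (q : ℕ), q < n → T n X q = X i →
        ((x.symm c).val = q ↔ U n (X i) q = c.val) := by
      intro c q hq hT
      have e := hval ⟨q, hq⟩
      simp only [hT] at e
      rw [← e]
      constructor
      · intro h
        have : x.symm c = ⟨q, hq⟩ := Fin.ext h
        rw [← this]; simp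
      · intro h
        have : x ⟨q, hq⟩ = c := Fin.ext h
        rw [← this]; simp
    have hcross : Cross n i (X i) a b ↔ (((x.symm a).val = i - 1 ∧ (x.symm b).val = i) ∨
        ((x.symm b).val = i - 1 ∧ (x.symm a).val = i)) := by
      rw [hloc a (i - 1) (by omega) t1, hloc b i hi.2 t2, hloc b (i - 1) (by omega) t1,
        hloc a i hi.2 t2]
      rfl
    have hne : (x.symm a).val ≠ (x.symm b).val := by
      intro h
      exact hab.ne (x.symm.injective (Fin.ext h))
    have hstep : Crossed n (step X i) a b ↔ Crossed n X a b ∨ Cross n i (X i) a b := by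
      constructor
      · rintro ⟨k, t, hk, h1, h2, h3⟩
        simp only [step] at h2
        by_cases c : k = i ∧ t = X i
        · right; rw [← c.2, ← c.1]; exact h3
        · left
          refine ⟨k, t, hk, h1, ?_, h3⟩
          split_ifs at h2 with c2
          · subst c2; omega
          · exact h2
      · rintro (⟨k, t, hk, h1, h2, h3⟩ | h)
        · refine ⟨k, t, hk, h1, ?_, h3⟩
          simp only [step]; split_ifs <;> omega
        · exact ⟨i, X i, hi, hpar, by simp [step], h⟩
    have hBx : Before x b a ↔ (x.symm b).val < (x.symm a).val := Iff.rfl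
    rw [hB, hstep, ← IH, s_val hi, s_val hi, hBx]
    by_cases c : Cross n i (X i) a b
    · have hnot : ¬ Crossed n X a b := by
        rintro ⟨k, t, hk, h1, h2, h3⟩
        have hk2 := hbd' k hk.1 hk.2
        have hk3 : X k % 2 = (k + 1) % 2 := run_X0_parity u k
        obtain ⟨rfl, rfl⟩ := cross_unique hk h1 hi hpar (by omega) (by omega) h3 c
        omega
      rw [← IH, hBx] at hnot
      simp only [c, or_true, iff_true]
      rw [hcross] at c
      split_ifs <;> omega
    · simp only [c, or_false]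
      rw [hcross] at c
      split_ifs <;> omega

end Pool.Agent.MP_43f1fb_co

end

-- part MP_43f1fb_co.Walks
section

/-! Counting walks on a path graph. -/

namespace Pool.Agent.MP_43f1fb_co

open Finset

/-- Neighbours of `x` in the path graph on `{0,…,N-1}`. -/
def nbrs (N x : ℕ) : Finset ℕ := (range N).filter fun y => x + 1 = y ∨ y + 1 = x

/-- The adjacency operator. -/
def adjOp (N : ℕ) (φ : ℕ → ℕ) (x : ℕ) : ℕ := ∑ y ∈ nbrs N x, φ y

/-- Number of walks of length `k` from `x`. -/
def wk (N k : ℕ) : ℕ → ℕ := (adjOp N)^[k] fun _ => 1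

open Classical in
/-- Walks with `k + 1` vertices, as functions supported on `[1, k + 1]`. -/
noncomputable def walks (N : ℕ) : ℕ → Finset (ℕ → ℕ)
  | 0 => (range N).image fun x => Function.update (fun _ => 0) 1 x
  | k + 1 => ((walks N k).sigma fun X => nbrs N (X (k + 1))).image
      fun z => Function.update z.1 (k + 2) z.2

lemma mem_nbrs {N x y : ℕ} : y ∈ nbrs N x ↔ y < N ∧ (x + 1 = y ∨ y + 1 = x) := by
  simp [nbrs]

lemma mem_walks {N k : ℕ} {X : ℕ → ℕ} :
    X ∈ walks N k ↔ (∀ i, 1 ≤ i → i ≤ k → (X i + 1 = X (i + 1) ∨ X (i + 1) + 1 = X i)) ∧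
      (∀ i, 1 ≤ i → i ≤ k + 1 → X i < N) ∧ (∀ i, (i = 0 ∨ k + 1 < i) → X i = 0) := by
  induction k generalizing X with
  | zero =>
    simp only [walks, mem_image, mem_range]
    constructor
    · rintro ⟨x, hx, rfl⟩
      refine ⟨fun i h1 h2 => by omega, fun i h1 h2 => ?_, fun i hi => ?_⟩
      · obtain rfl : i = 1 := by omega
        simpa using hx
      · rw [Function.update_of_ne (by omega)]
    · rintro ⟨-, h2, h3⟩
      refine ⟨X 1, h2 1 le_rfl le_rfl, ?_⟩
      funext i
      by_cases hi : i = 1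
      · subst hi; simp
      · rw [Function.update_of_ne hi, h3 i (by omega)]
  | succ k ih =>
    simp only [walks, mem_image, mem_sigma]
    constructor
    · rintro ⟨⟨Y, y⟩, ⟨hY, hy⟩, rfl⟩
      obtain ⟨h1, h2, h3⟩ := ih.1 hY
      simp only [mem_nbrs] at hy
      refine ⟨fun i hi1 hi2 => ?_, fun i hi1 hi2 => ?_, fun i hi => ?_⟩
      · by_cases hik : i = k + 1
        · subst hik
          simp only [Function.update_self]
          rw [Function.update_of_ne (by omega)]
          exact hy.2
        · rw [Function.update_of_ne (by omega), Function.update_of_ne (by omega)]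
          exact h1 i hi1 (by omega)
      · by_cases hik : i = k + 2
        · subst hik; simpa using hy.1
        · rw [Function.update_of_ne hik]; exact h2 i hi1 (by omega)
      · rw [Function.update_of_ne (by omega)]; exact h3 i (by omega)
    · rintro ⟨h1, h2, h3⟩
      refine ⟨⟨Function.update X (k + 2) 0, X (k + 2)⟩, ⟨?_, ?_⟩, ?_⟩
      · refine ih.2 ⟨fun i hi1 hi2 => ?_, fun i hi1 hi2 => ?_, fun i hi => ?_⟩
        · simp only
          rw [Function.update_of_ne (by omega), Function.update_of_ne (by omega)]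
          exact h1 i hi1 (by omega)
        · simp only
          rw [Function.update_of_ne (by omega)]; exact h2 i hi1 (by omega)
        · simp only
          by_cases hik : i = k + 2
          · subst hik; simp
          · rw [Function.update_of_ne hik]; exact h3 i (by omega)
      · simp only [mem_nbrs]
        rw [Function.update_of_ne (by omega)]
        exact ⟨h2 _ (by omega) le_rfl, h1 (k + 1) (by omega) le_rfl⟩
      · simp

lemma sum_walks_succ (N k : ℕ) (F : (ℕ → ℕ) → ℕ) :
    ∑ X ∈ walks N (k + 1), F X =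
      ∑ X ∈ walks N k, ∑ y ∈ nbrs N (X (k + 1)), F (Function.update X (k + 2) y) := by
  classical
  rw [walks, sum_image, sum_sigma]
  rintro ⟨Y, y⟩ hY ⟨Z, z⟩ hZ h
  simp only [coe_sigma, Set.mem_sigma_iff, mem_coe] at hY hZ
  have hY0 := (mem_walks.1 hY.1).2.2 (k + 2) (by omega)
  have hZ0 := (mem_walks.1 hZ.1).2.2 (k + 2) (by omega)
  have hyz : y = z := by simpa using congrFun h (k + 2)
  have hYZ : Y = Z := by
    funext i
    by_cases hi : i = k + 2
    · rw [hi, hY0, hZ0]
    · have := congrFun h i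
      simpa [Function.update_of_ne hi] using this
  subst hyz hYZ
  rfl

lemma sum_adj_symm (N : ℕ) (φ ψ : ℕ → ℕ) :
    ∑ x ∈ range N, adjOp N φ x * ψ x = ∑ y ∈ range N, φ y * adjOp N ψ y := by
  simp only [adjOp, nbrs, sum_filter, sum_mul, mul_sum]
  rw [sum_comm]
  refine sum_congr rfl fun y _ => sum_congr rfl fun x _ => ?_
  by_cases h : x + 1 = y ∨ y + 1 = x
  · rw [if_pos h, if_pos h.symm]
  · rw [if_neg h, if_neg (fun h' => h h'.symm)]; simp

lemma wk_succ (N k : ℕ) : wk N (k + 1) = adjOp N (wk N k) := by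
  simp only [wk, Function.iterate_succ_apply']

lemma sum_walks_last (N k : ℕ) (φ : ℕ → ℕ) :
    ∑ X ∈ walks N k, φ (X (k + 1)) = ∑ x ∈ range N, φ x * wk N k x := by
  classical
  induction k generalizing φ with
  | zero =>
    rw [walks, sum_image]
    · simp [wk]
    · intro x _ y _ h
      simpa using congrFun h 1
  | succ k ih =>
    rw [sum_walks_succ]
    simp only [Function.update_self]
    have := ih (adjOp N φ)
    simp only [adjOp] at this ⊢
    rw [this, wk_succ]
    exact sum_adj_symm N φ (wk N k)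

lemma sum_walks_mid (N a b : ℕ) (g φ : ℕ → ℕ) :
    ∑ X ∈ walks N (a + b), g (X (a + 1)) * φ (X (a + b + 1)) =
      ∑ x ∈ range N, g x * (wk N a x * (adjOp N)^[b] φ x) := by
  induction b generalizing φ with
  | zero =>
    have := sum_walks_last N a (fun x => g x * φ x)
    simp only [add_zero, Function.iterate_zero, id_eq]
    rw [this]
    refine sum_congr rfl fun x _ => by ring
  | succ b ih =>
    rw [← add_assoc, sum_walks_succ]
    simp only [Function.update_self]
    have h1 : ∀ (X : ℕ → ℕ) (y : ℕ), Function.update X (a + b + 2) y (a + 1) = X (a + 1) :=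
      fun X y => Function.update_of_ne (by omega) _ _
    simp only [h1, ← mul_sum]
    have := ih (adjOp N φ)
    simp only [Function.iterate_succ_apply]
    rw [← this]
    rfl

lemma sum_walks_at (N a b : ℕ) (g : ℕ → ℕ) :
    ∑ X ∈ walks N (a + b), g (X (a + 1)) = ∑ x ∈ range N, g x * (wk N a x * wk N b x) := by
  have := sum_walks_mid N a b g (fun _ => 1)
  simpa [wk] using this

lemma wk_succ_apply {N k x : ℕ} (hx : x < N) :
    wk N (k + 1) x = (if 1 ≤ x then wk N k (x - 1) else 0) +
      (if x + 1 < N then wk N k (x + 1) else 0) := by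
  rw [wk_succ, adjOp]
  by_cases h1 : 1 ≤ x <;> by_cases h2 : x + 1 < N
  · have : nbrs N x = {x - 1, x + 1} := by
      ext y; simp only [mem_nbrs, mem_insert, mem_singleton]; omega
    rw [this, sum_pair (by omega), if_pos h1, if_pos h2]
  · have : nbrs N x = {x - 1} := by
      ext y; simp only [mem_nbrs, mem_singleton]; omega
    rw [this, sum_singleton, if_pos h1, if_neg h2, add_zero]
  · have : nbrs N x = {x + 1} := by
      ext y; simp only [mem_nbrs, mem_singleton]; omega
    rw [this, sum_singleton, if_neg h1, if_pos h2, zero_add]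
  · have : nbrs N x = ∅ := by
      ext y; simp only [mem_nbrs, notMem_empty]; constructor
      · intro h; omega
      · intro h; exact h.elim
    rw [this, sum_empty, if_neg h1, if_neg h2, add_zero]

lemma wk_zero (N x : ℕ) : wk N 0 x = 1 := rfl

lemma wk_symm {N : ℕ} (k : ℕ) : ∀ x y, x + y + 1 = N → wk N k x = wk N k y := by
  induction k with
  | zero => intro x y _; rfl
  | succ k ih =>
    intro x y h
    rw [wk_succ_apply (by omega), wk_succ_apply (by omega), add_comm]
    congr 1
    · by_cases h1 : 1 ≤ y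
      · rw [if_pos (by omega), if_pos h1]; exact ih _ _ (by omega)
      · rw [if_neg (by omega), if_neg h1]
    · by_cases h1 : 1 ≤ x
      · rw [if_pos h1, if_pos (by omega)]; exact ih _ _ (by omega)
      · rw [if_neg h1, if_neg (by omega)]

lemma wk_pos {N : ℕ} (hN : 2 ≤ N) (k : ℕ) : ∀ x, x < N → 0 < wk N k x := by
  induction k with
  | zero => intro x _; exact Nat.one_pos
  | succ k ih =>
    intro x hx
    rw [wk_succ_apply hx]
    by_cases h1 : 1 ≤ x
    · rw [if_pos h1]
      have := ih (x - 1) (by omega)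
      omega
    · rw [if_neg h1, if_pos (by omega)]
      have := ih (x + 1) (by omega)
      omega

lemma wk_anti (p k : ℕ) : ∀ x, p ≤ x → x + 1 < 2 * p + 2 →
    wk (2 * p + 2) k (x + 1) ≤ wk (2 * p + 2) k x := by
  induction k with
  | zero => intro x _ _; exact le_rfl
  | succ k ih =>
    intro x hx1 hx2
    rcases eq_or_lt_of_le hx1 with rfl | hlt
    · exact (wk_symm _ _ _ (by omega)).le
    · rw [wk_succ_apply hx2, wk_succ_apply (by omega : x < 2 * p + 2), if_pos (by omega),
        if_pos (by omega : 1 ≤ x), if_pos hx2]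
      have h1 := ih (x - 1) (by omega) (by omega)
      have e1 : x - 1 + 1 = x := by omega
      have e2 : x + 1 - 1 = x := by omega
      rw [e1] at h1
      rw [e2]
      by_cases h2 : x + 1 + 1 < 2 * p + 2
      · rw [if_pos h2]
        have := ih (x + 1) (by omega) h2
        omega
      · rw [if_neg h2]; omega

lemma wk_end_lt {p : ℕ} (hp : 1 ≤ p) (k : ℕ) :
    wk (2 * p + 2) (k + 1) (2 * p + 1) < wk (2 * p + 2) (k + 1) (2 * p) := by
  rw [wk_succ_apply (by omega), wk_succ_apply (by omega), if_pos (by omega), if_neg (by omega),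
    if_pos (by omega), if_pos (by omega)]
  have h1 := wk_anti p k (2 * p - 1) (by omega) (by omega)
  have e1 : 2 * p - 1 + 1 = 2 * p := by omega
  have e2 : 2 * p + 1 - 1 = 2 * p := by omega
  rw [e1] at h1
  rw [e2]
  have := wk_pos (N := 2 * p + 2) (by omega) k (2 * p + 1) (by omega)
  omega

/-- Upper sums of `f` over one parity class. -/
def upSum (N : ℕ) (f : ℕ → ℕ) (α : ℕ) : ℕ :=
  ∑ x ∈ range N, (if x % 2 = α % 2 ∧ α ≤ x then 1 else 0) * f x

lemma upSum_step {N α : ℕ} (f : ℕ → ℕ) (h : α < N) :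
    upSum N f α = f α + upSum N f (α + 2) := by
  unfold upSum
  have : f α = ∑ x ∈ range N, (if x = α then 1 else 0) * f x := by
    simp [h]
  rw [this, ← sum_add_distrib]
  refine sum_congr rfl fun x _ => ?_
  rw [← add_mul]
  congr 1
  split_ifs <;> omega

lemma upSum_zero {N α : ℕ} (f : ℕ → ℕ) (h : N ≤ α) : upSum N f α = 0 := by
  unfold upSum
  refine sum_eq_zero fun x hx => ?_
  rw [mem_range] at hx
  rw [if_neg (by omega), zero_mul]

lemma upSum_le_step (N α : ℕ) (f : ℕ → ℕ) : upSum N f (α + 2) ≤ upSum N f α := by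
  by_cases h : α < N
  · rw [upSum_step f h]; omega
  · rw [upSum_zero f (by omega : N ≤ α + 2)]; omega

section
variable {p : ℕ} {f : ℕ → ℕ}
  (hanti : ∀ x, p ≤ x → x + 1 < 2 * p + 2 → f (x + 1) ≤ f x)
  (hend : f (2 * p + 1) < f (2 * p)) (hpos : 0 < f (2 * p + 1))
include hanti hend hpos

lemma upSum_strict : ∀ d α, α + d = 2 * p + 1 → p ≤ α →
    upSum (2 * p + 2) f (α + 1) < upSum (2 * p + 2) f α := by
  intro d
  induction d using Nat.strong_induction_on with
  | _ d ih =>
    intro α h1 h2
    rcases d with _ | _ | d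
    · obtain rfl : α = 2 * p + 1 := by omega
      rw [upSum_zero f (by omega), upSum_step f (by omega)]
      omega
    · obtain rfl : α = 2 * p := by omega
      rw [upSum_step f (by omega), upSum_step f (by omega : 2 * p < 2 * p + 2),
        upSum_zero f (by omega), upSum_zero f (by omega)]
      omega
    · rw [upSum_step f (by omega), upSum_step f (by omega : α < 2 * p + 2)]
      have h3 := ih d (by omega) (α + 2) (by omega) (by omega)
      have h4 := hanti α h2 (by omega)
      have e : α + 1 + 2 = α + 2 + 1 := by omega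
      rw [e]
      omega

lemma upSum_cmp (hp : 1 ≤ p) : ∀ d α β, α + d = p + 1 → α + β = 2 * p + 3 →
    upSum (2 * p + 2) f β < upSum (2 * p + 2) f α := by
  intro d
  induction d using Nat.strong_induction_on with
  | _ d ih =>
    intro α β h1 h2
    rcases d with _ | _ | d
    · obtain rfl : β = α + 1 := by omega
      exact upSum_strict hanti hend hpos p α (by omega) (by omega)
    · obtain rfl : β = α + 1 + 2 := by omega
      have h3 := upSum_strict hanti hend hpos (p + 1) α (by omega) (by omega)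
      have h4 := upSum_le_step (2 * p + 2) (α + 1) f
      omega
    · obtain ⟨γ, rfl⟩ : ∃ γ, β = γ + 2 := ⟨β - 2, by omega⟩
      have h3 := ih d (by omega) (α + 2) γ (by omega) (by omega)
      have h4 := upSum_le_step (2 * p + 2) γ f
      have h5 := upSum_le_step (2 * p + 2) α f
      omega

end

lemma lowSum_eq {N : ℕ} {f : ℕ → ℕ} (hsym : ∀ x y, x + y + 1 = N → f x = f y) (t β : ℕ)
    (h : t + β + 1 = N) :
    ∑ x ∈ range N, (if x % 2 = t % 2 ∧ ¬ t < x then 1 else 0) * f x = upSum N f β := by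
  unfold upSum
  rw [← sum_range_reflect]
  refine sum_congr rfl fun x hx => ?_
  rw [mem_range] at hx
  rw [hsym (N - 1 - x) x (by omega)]
  congr 1
  refine if_congr ?_ rfl rfl
  omega

/-- The key comparison: among the walks whose `i`-th vertex has the parity of `t`, those with
`t < X i` are in the majority exactly when `t < p`. -/
theorem card_cmp {p k i t : ℕ} (hp : 1 ≤ p) (hk : 1 ≤ k) (hi1 : 1 ≤ i) (hi2 : i ≤ k + 1)
    (ht : t < 2 * p) :
    (t < p → ((walks (2 * p + 2) k).filter fun X => X i % 2 = t % 2 ∧ ¬ t < X i).card <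
      ((walks (2 * p + 2) k).filter fun X => X i % 2 = t % 2 ∧ t < X i).card) ∧
    (p ≤ t → ((walks (2 * p + 2) k).filter fun X => X i % 2 = t % 2 ∧ t < X i).card <
      ((walks (2 * p + 2) k).filter fun X => X i % 2 = t % 2 ∧ ¬ t < X i).card) := by
  obtain ⟨a, rfl⟩ : ∃ a, i = a + 1 := ⟨i - 1, by omega⟩
  obtain ⟨b, rfl⟩ : ∃ b, k = a + b := ⟨k - a, by omega⟩
  set f : ℕ → ℕ := fun x => wk (2 * p + 2) a x * wk (2 * p + 2) b x with hf
  have hsym : ∀ x y, x + y + 1 = 2 * p + 2 → f x = f y := fun x y h => by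
    simp only [hf]; rw [wk_symm a x y h, wk_symm b x y h]
  have hanti : ∀ x, p ≤ x → x + 1 < 2 * p + 2 → f (x + 1) ≤ f x := fun x h1 h2 =>
    Nat.mul_le_mul (wk_anti p a x h1 h2) (wk_anti p b x h1 h2)
  have hpos : 0 < f (2 * p + 1) :=
    Nat.mul_pos (wk_pos (by omega) a _ (by omega)) (wk_pos (by omega) b _ (by omega))
  have hend : f (2 * p + 1) < f (2 * p) := by
    simp only [hf]
    rcases a with _ | a
    · obtain ⟨b, rfl⟩ : ∃ c, b = c + 1 := ⟨b - 1, by omega⟩
      simpa [wk_zero] using wk_end_lt hp b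
    · exact Nat.mul_lt_mul_of_lt_of_le (wk_end_lt hp a) (wk_anti p b _ (by omega) (by omega))
        (wk_pos (by omega) b _ (by omega))
  have e1 : ((walks (2 * p + 2) (a + b)).filter
      fun X => X (a + 1) % 2 = t % 2 ∧ ¬ t < X (a + 1)).card =
      upSum (2 * p + 2) f (2 * p + 1 - t) := by
    rw [card_filter, sum_walks_at (2 * p + 2) a b fun x => if x % 2 = t % 2 ∧ ¬ t < x then 1 else 0]
    exact lowSum_eq hsym t _ (by omega)
  have e2 : ((walks (2 * p + 2) (a + b)).filter
      fun X => X (a + 1) % 2 = t % 2 ∧ t < X (a + 1)).card =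
      upSum (2 * p + 2) f (t + 2) := by
    rw [card_filter, sum_walks_at (2 * p + 2) a b fun x => if x % 2 = t % 2 ∧ t < x then 1 else 0]
    unfold upSum
    refine sum_congr rfl fun x _ => ?_
    congr 1
    refine if_congr ?_ rfl rfl
    omega
  rw [e1, e2]
  constructor
  · intro h
    exact upSum_cmp hanti hend hpos hp (p - 1 - t) _ _ (by omega) (by omega)
  · intro h
    exact upSum_cmp hanti hend hpos hp (t - p) _ _ (by omega) (by omega)

end Pool.Agent.MP_43f1fb_co

end

-- part MP_43f1fb_co.Main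
section

/-! The majority relation on `Pre(C(c^p))`. -/

namespace Pool.Agent.MP_43f1fb_co

open Finset

lemma wordProd_eq_of_agree {n : ℕ} (hn : 2 ≤ n) {u u' : List ℕ} (h : LegalFrom n X0 u)
    (h' : LegalFrom n X0 u') (hag : ∀ i, 1 ≤ i → i < n → run X0 u i = run X0 u' i) :
    wordProd n u = wordProd n u' := by
  ext q
  have hq := q.2
  rw [wordProd_val u h, wordProd_val u' h']
  congr 1
  simp only [T]
  split_ifs with c1 c2
  · exact hag 1 le_rfl (by omega)
  · exact hag _ (by omega) hq
  · rw [hag _ (by omega) hq, hag _ (by omega) (by omega)]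

lemma crossed_congr {n : ℕ} {X Y : ℕ → ℕ} (hag : ∀ i, 1 ≤ i → i < n → X i = Y i) (a b : ℕ) :
    Crossed n X a b ↔ Crossed n Y a b := by
  constructor
  · rintro ⟨i, t, hi, h1, h2, h3⟩
    exact ⟨i, t, hi, h1, hag i hi.1 hi.2 ▸ h2, h3⟩
  · rintro ⟨i, t, hi, h1, h2, h3⟩
    exact ⟨i, t, hi, h1, (hag i hi.1 hi.2).symm ▸ h2, h3⟩

lemma crossed_iff {n i t a b : ℕ} {X : ℕ → ℕ} (hi : 1 ≤ i ∧ i < n) (hp : t % 2 = (i + 1) % 2)
    (ht : t < n) (hc : Cross n i t a b)
    (hX : ∀ k, 1 ≤ k → k < n → X k % 2 = (k + 1) % 2 ∧ X k ≤ n + 1) :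
    Crossed n X a b ↔ t < X i := by
  constructor
  · rintro ⟨k, r, hk, h1, h2, h3⟩
    have := hX k hk.1 hk.2
    obtain ⟨rfl, rfl⟩ := cross_unique hk h1 hi hp (by omega) ht h3 hc
    exact h2
  · intro h
    exact ⟨i, t, hi, hp, h, hc⟩

lemma U_lt {n : ℕ} (t : ℕ) : ∀ q, q < n → U n t q < n := by
  induction t with
  | zero => intro q hq; exact hq
  | succ t ih =>
    intro q hq
    refine ih _ ?_
    simp only [blk]; split_ifs <;> omega

lemma before_total {n : ℕ} (x : Equiv.Perm (Fin n)) {a b : Fin n} (hab : a ≠ b) :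
    Before x a b ↔ ¬ Before x b a := by
  unfold Before
  have : x.symm a ≠ x.symm b := fun h => hab (x.symm.injective h)
  constructor
  · exact fun h => not_lt.2 h.le
  · exact fun h => lt_of_le_of_ne (not_lt.1 h) this

/-- The admissible height functions. -/
noncomputable def V (n p : ℕ) : Finset (ℕ → ℕ) :=
  (walks (2 * p + 2) (n - 2)).filter fun X => X 1 % 2 = 0

lemma parity_iff {n : ℕ} {X : ℕ → ℕ} (h : Adj n X) :
    ∀ i, 1 ≤ i → i < n → (X 1 % 2 = 0 ↔ X i % 2 = (i + 1) % 2) := by
  intro i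
  induction i with
  | zero => intro h; omega
  | succ i ih =>
    intro h1 h2
    rcases Nat.eq_zero_or_pos i with rfl | hi
    · simp
    · rw [ih hi (by omega)]
      have := h i hi h2
      omega

lemma adj_of_walks {n N : ℕ} {X : ℕ → ℕ} (h : X ∈ walks N (n - 2)) : Adj n X :=
  fun i h1 h2 => (mem_walks.1 h).1 i h1 (by omega)

lemma mem_V {n p : ℕ} (hn : 2 ≤ n) {X : ℕ → ℕ} : X ∈ V n p ↔ Adj n X ∧
    (∀ i, 1 ≤ i → i < n → X i % 2 = (i + 1) % 2 ∧ X i ≤ 2 * p + 1) ∧
    (∀ i, (i = 0 ∨ n ≤ i) → X i = 0) := by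
  rw [V, mem_filter]
  constructor
  · rintro ⟨h, h0⟩
    have ha := adj_of_walks h
    obtain ⟨-, h2, h3⟩ := mem_walks.1 h
    refine ⟨ha, fun i h1 hi => ⟨(parity_iff ha i h1 hi).1 h0, ?_⟩, fun i hi => h3 i (by omega)⟩
    have := h2 i h1 (by omega)
    omega
  · rintro ⟨h1, h2, h3⟩
    refine ⟨mem_walks.2 ⟨fun i a b => h1 i a (by omega), fun i a b => ?_,
      fun i hi => h3 i (by omega)⟩, ?_⟩
    · have := (h2 i a (by omega)).2
      omega
    · have := (h2 1 le_rfl (by omega)).1
      omega

theorem exists_param {n p : ℕ} (hn : 2 ≤ n) (hpn : 2 * p ≤ n) :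
    ∃ Φ : (ℕ → ℕ) → Equiv.Perm (Fin n),
      Set.BijOn Φ (V n p) (Pre n (commClass (powWord n p))) ∧
      ∀ X ∈ V n p, ∀ a b : Fin n, a < b → (Before (Φ X) b a ↔ Crossed n X a b) := by
  have H : ∀ X : ℕ → ℕ, ∃ uv : List ℕ × List ℕ, X ∈ V n p →
      uv.1 ++ uv.2 ∈ commClass (powWord n p) ∧ ∀ i, 1 ≤ i → i < n → run X0 uv.1 i = X i := by
    intro X
    by_cases hX : X ∈ V n p
    · obtain ⟨h1, h2, -⟩ := (mem_V hn).1 hX
      obtain ⟨u, v, h3, h4⟩ := exists_segment _ X rfl h1 h2
      exact ⟨(u, v), fun _ => ⟨h3, h4⟩⟩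
    · exact ⟨([], []), fun h => absurd h hX⟩
  choose uv huv using H
  have hbef : ∀ X ∈ V n p, ∀ a b : Fin n, a < b →
      (Before (wordProd n (uv X).1) b a ↔ Crossed n X a b) := by
    intro X hX a b hab
    obtain ⟨h1, h2⟩ := huv X hX
    obtain ⟨-, h3, -⟩ := (mem_V hn).1 hX
    rw [before_iff _ (class_segment h1).1 (fun i a b => ?_) a b hab, crossed_congr h2]
    have := (h3 i a b).2
    rw [h2 i a b]; omega
  refine ⟨fun X => wordProd n (uv X).1, ⟨?_, ?_, ?_⟩, hbef⟩
  · intro X hX
    refine ⟨_, (huv X hX).1, (uv X).1.length, by simp, by simp⟩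
  · have key : ∀ X ∈ V n p, ∀ Y ∈ V n p, wordProd n (uv X).1 = wordProd n (uv Y).1 →
        ∀ i, 1 ≤ i → i < n → Y i ≤ X i := by
      intro X hX Y hY hXY i hi1 hi2
      obtain ⟨-, h3, -⟩ := (mem_V hn).1 hX
      obtain ⟨-, h4, -⟩ := (mem_V hn).1 hY
      have h3' : ∀ k, 1 ≤ k → k < n → X k % 2 = (k + 1) % 2 ∧ X k ≤ n + 1 := fun k a b => by
        have := h3 k a b; omega
      have h4' : ∀ k, 1 ≤ k → k < n → Y k % 2 = (k + 1) % 2 ∧ Y k ≤ n + 1 := fun k a b => by
        have := h4 k a b; omega
      by_contra hlt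
      have e3 := h3 i hi1 hi2
      have e4 := h4 i hi1 hi2
      have hne : U n (X i) (i - 1) ≠ U n (X i) i := fun h => by
        have := U_inj n (X i) h; omega
      have l1 := U_lt (n := n) (X i) (i - 1) (by omega)
      have l2 := U_lt (n := n) (X i) i hi2
      have main : ∀ a b : Fin n, a < b → Cross n i (X i) a b → False := by
        intro a b hab hc
        have c1 := crossed_iff ⟨hi1, hi2⟩ e3.1 (by omega) hc h3'
        have c2 := crossed_iff ⟨hi1, hi2⟩ e3.1 (by omega) hc h4'
        rw [← hbef X hX a b hab] at c1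
        rw [← hbef Y hY a b hab, ← hXY] at c2
        have := c1.1 (c2.2 (by omega))
        omega
      rcases lt_or_gt_of_ne hne with c | c
      · exact main ⟨_, l1⟩ ⟨_, l2⟩ c (Or.inl ⟨rfl, rfl⟩)
      · exact main ⟨_, l2⟩ ⟨_, l1⟩ c (Or.inr ⟨rfl, rfl⟩)
    intro X hX Y hY hXY
    funext i
    by_cases hi : 1 ≤ i ∧ i < n
    · exact le_antisymm (key Y hY X hX hXY.symm i hi.1 hi.2) (key X hX Y hY hXY i hi.1 hi.2)
    · rw [((mem_V hn).1 hX).2.2 i (by omega), ((mem_V hn).1 hY).2.2 i (by omega)]
  · rintro x ⟨w, hw, m, -, rfl⟩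
    rw [← List.take_append_drop m w] at hw
    obtain ⟨h1, h2, h3⟩ := class_segment hw
    set u := w.take m with hu
    set X : ℕ → ℕ := fun i => if 1 ≤ i ∧ i < n then run X0 u i else 0 with hXdef
    have hag : ∀ i, 1 ≤ i → i < n → X i = run X0 u i := fun i a b => if_pos ⟨a, b⟩
    have hX : X ∈ V n p := by
      refine (mem_V hn).2 ⟨fun i a b => ?_, fun i a b => ?_, fun i hi => if_neg (by omega)⟩
      · rw [hag i a (by omega), hag (i + 1) (by omega) b]
        exact h2.adj i a b
      · rw [hag i a b]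
        have e := h3 i a b
        refine ⟨run_X0_parity u i, ?_⟩
        split_ifs at e <;> omega
    refine ⟨X, hX, wordProd_eq_of_agree hn (class_segment (huv X hX).1).1 h1 fun i a b => ?_⟩
    rw [(huv X hX).2 i a b, hag i a b]

lemma ncard_param {n : ℕ} {W : Finset (ℕ → ℕ)} {D : Set (Equiv.Perm (Fin n))}
    {Φ : (ℕ → ℕ) → Equiv.Perm (Fin n)} (h : Set.BijOn Φ W D) (P : Equiv.Perm (Fin n) → Prop)
    (W' : Finset (ℕ → ℕ)) (hW : ∀ X, X ∈ W' ↔ X ∈ W ∧ P (Φ X)) :
    {x ∈ D | P x}.ncard = W'.card := by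
  have : {x ∈ D | P x} = Φ '' W' := by
    ext x
    constructor
    · rintro ⟨hx, hP⟩
      obtain ⟨X, hX, rfl⟩ := h.surjOn hx
      exact ⟨X, (hW X).2 ⟨hX, hP⟩, rfl⟩
    · rintro ⟨X, hX, rfl⟩
      have := (hW X).1 hX
      exact ⟨h.mapsTo this.1, this.2⟩
  rw [this, Set.InjOn.ncard_image (h.injOn.mono fun X hX => ((hW X).1 hX).1), Set.ncard_coe_finset]

theorem cmp_lt {n p : ℕ} (hn : 3 ≤ n) (hp : 1 ≤ p) (hpn : 2 * p ≤ n) (a b : Fin n) (hab : a < b) :
    (Before (uPerm n p) b a → Majority (Pre n (commClass (powWord n p))) b a) ∧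
    (Before (uPerm n p) a b → Majority (Pre n (commClass (powWord n p))) a b) := by
  classical
  have hn2 : 2 ≤ n := by omega
  obtain ⟨Φ, hΦ, hbef⟩ := exists_param hn2 hpn
  obtain ⟨u, hu1, hu2, hu3⟩ := exists_uWord n p
  have hub : ∀ k, 1 ≤ k → k < n →
      run X0 u k % 2 = (k + 1) % 2 ∧ run X0 u k ≤ p + 1 := fun k h1 h2 => by
    have e := hu3 k h1 h2
    refine ⟨run_X0_parity u k, ?_⟩
    split_ifs at e <;> omega
  have hU : Before (uPerm n p) b a ↔ Crossed n (run X0 u) a b := by
    rw [← hu1]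
    exact before_iff u hu2 (fun k h1 h2 => by have := hub k h1 h2; omega) a b hab
  unfold Majority
  by_cases hc : ∃ i t, (1 ≤ i ∧ i < n) ∧ t % 2 = (i + 1) % 2 ∧ t < 2 * p ∧ Cross n i t a b
  · obtain ⟨i, t, hi, ht1, ht2, hc⟩ := hc
    have hU' : Before (uPerm n p) b a ↔ t < p := by
      rw [hU, crossed_iff hi ht1 (by omega) hc (fun k h1 h2 => by have := hub k h1 h2; omega),
        hu3 i hi.1 hi.2]
      split_ifs <;> omega
    have hΦ' : ∀ X ∈ V n p, (Before (Φ X) b a ↔ t < X i) := fun X hX => by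
      rw [hbef X hX a b hab, crossed_iff hi ht1 (by omega) hc (fun k h1 h2 => ?_)]
      have := ((mem_V hn2).1 hX).2.1 k h1 h2
      omega
    have hV : ∀ X, X ∈ V n p ↔ X ∈ walks (2 * p + 2) (n - 2) ∧ X i % 2 = t % 2 := fun X => by
      rw [V, mem_filter, ht1]
      exact and_congr_right fun h => parity_iff (adj_of_walks h) i hi.1 hi.2
    have e1 := ncard_param hΦ (fun x => Before x b a)
      ((walks (2 * p + 2) (n - 2)).filter fun X => X i % 2 = t % 2 ∧ t < X i) (fun X => by
        rw [mem_filter, ← and_assoc, ← hV]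
        exact and_congr_right fun h => (hΦ' X h).symm)
    have e2 := ncard_param hΦ (fun x => Before x a b)
      ((walks (2 * p + 2) (n - 2)).filter fun X => X i % 2 = t % 2 ∧ ¬ t < X i) (fun X => by
        rw [mem_filter, ← and_assoc, ← hV]
        refine and_congr_right fun h => ?_
        rw [before_total _ hab.ne, hΦ' X h])
    obtain ⟨c1, c2⟩ := card_cmp (p := p) (k := n - 2) (i := i) (t := t) hp (by omega) hi.1
      (by omega) ht2
    rw [e1, e2, before_total _ hab.ne, hU']
    exact ⟨c1, fun h => c2 (by omega)⟩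
  · have hno : ∀ X : ℕ → ℕ, (∀ k, 1 ≤ k → k < n → X k % 2 = (k + 1) % 2 ∧ X k ≤ 2 * p + 1) →
        ¬ Crossed n X a b := by
      rintro X hX ⟨i, t, hi, h1, h2, h3⟩
      have := hX i hi.1 hi.2
      exact hc ⟨i, t, hi, h1, by omega, h3⟩
    have e1 := ncard_param hΦ (fun x => Before x b a) ∅ (fun X => by
      simp only [notMem_empty, false_iff, not_and]
      intro hX
      rw [hbef X hX a b hab]
      exact hno X ((mem_V hn2).1 hX).2.1)
    have e2 := ncard_param hΦ (fun x => Before x a b) (V n p) (fun X => by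
      refine ⟨fun hX => ⟨hX, ?_⟩, fun h => h.1⟩
      rw [before_total _ hab.ne, hbef X hX a b hab]
      exact hno X ((mem_V hn2).1 hX).2.1)
    have hne : (V n p).Nonempty := by
      have h1 : (1 : Equiv.Perm (Fin n)) ∈ Pre n (commClass (powWord n p)) :=
        ⟨_, Relation.ReflTransGen.refl, 0, Nat.zero_le _, by simp [wordProd]⟩
      obtain ⟨X, hX, -⟩ := hΦ.surjOn h1
      exact ⟨X, hX⟩
    rw [e1, e2]
    refine ⟨fun h => absurd (hU.1 h) (hno _ fun k h1 h2 => ?_), fun _ => ?_⟩
    · have := hub k h1 h2; omega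
    · simpa using hne

theorem majority_iff {n p : ℕ} (hn : 3 ≤ n) (hp : 1 ≤ p) (hpn : 2 * p ≤ n) (a b : Fin n)
    (hab : a ≠ b) :
    Majority (Pre n (commClass (powWord n p))) a b ↔ Before (uPerm n p) a b := by
  have key : ∀ c d : Fin n, c ≠ d → Before (uPerm n p) c d →
      Majority (Pre n (commClass (powWord n p))) c d := by
    intro c d hcd
    rcases lt_or_gt_of_ne hcd with h | h
    · exact (cmp_lt hn hp hpn c d h).2
    · exact (cmp_lt hn hp hpn d c h).1
  refine ⟨fun h => ?_, key a b hab⟩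
  rw [before_total _ hab]
  intro h'
  have := key b a hab.symm h'
  unfold Majority at h this
  omega

end Pool.Agent.MP_43f1fb_co

end
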